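import Pool.Agent.H34.RQ.Tor
import Pool.Agent.H64.LK.Brief

/-!
`MP_fbf562_gt`, `n = 3`: neither the space `K_{3,1}` of long knots in `ℝ³` nor the space of framed
long knots is a retract of `Z_3 = Ω²Σ²(∐_{q ≥ 2} Ω Conf(ℝ², q))`, not even rationally; more
generally neither is a rational retract of any loop space.
(Helpers 34 and 64; Pool/Agent/H34/RQ, Pool/Agent/H64/LQ, Pool/Agent/H64/LK.)
-/

open CategoryTheory RQ LK

namespace Pool.Agent.Results.MP_fbf562_gt.NotRationalRetract

/-- Neither the space of long knots in `ℝ³` nor the space of framed long knots in `ℝ³` is a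
homotopy retract of `Z`, and neither is a retract of `Z` in the category obtained from the category
of topological spaces by inverting a class `S` of rational homology isomorphisms. -/
def NoRatRetract (Z : Type) [TopologicalSpace Z] : Prop :=
  (¬ HRetract (LongKnot 3) Z ∧ ¬ HRetract (FramedLongKnot 3) Z) ∧
    ∀ S : MorphismProperty TopCat.{0}, S ≤ ratIso →
      ¬ RetractIn S (LongKnot 3) Z ∧ ¬ RetractIn S (FramedLongKnot 3) Z

theorem loop_case (W : Type) [TopologicalSpace W] (w : W) : NoRatRetract (Path w w) := by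
  obtain ⟨D, ⟨t⟩⟩ := Tor_ex
  have h := Final_loop t (S := ratIso) le_rfl w
  exact ⟨⟨fun h1 => h.1 (HL_hretract h1), fun h1 => h.2 (HL_hretract h1)⟩,
    fun _ hS => Final_loop t hS w⟩

theorem result :
    (∀ y : YT 2, NoRatRetract (ZT 2 y)) ∧
    (∀ (W : Type) [TopologicalSpace W] (w : W), NoRatRetract (Path w w)) :=
  ⟨fun y => loop_case _ (Path.refl (suspBase (suspBase (X := YY 2) y))), loop_case⟩

end Pool.Agent.Results.MP_fbf562_gt.NotRationalRetract
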